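import Mathlib

-- withdrawn as a hand-in: known (Hosseini; Alweiss 2025, quoted in MP_73b4f2_co)

/-!
# MP_6fec45_co, Q2: the answer is no

For every `j` the Hamming ball `A = {y ∈ 𝔽₂^{4^j} : 2 wt(y) ≤ 4^j - 2^j}` has an additive complement of
size `K = 2 · 4^j` (the affine functions on `𝔽₂^{2j}`, by Parseval), while `2A` contains no coset of
codimension less than `2^j = √(K/2)`: a coset of codimension `d` contains a vector with at most `d`
zero coordinates.
-/

set_option autoImplicit false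

namespace Pool.Agent.R96.LogBoundFails

open Pointwise Module

/-! ### Signs -/

/-- the sign of an element of `𝔽₂` -/
def sgn (u : ZMod 2) : ℤ := if u = 0 then 1 else -1

theorem sgn_add (u v : ZMod 2) : sgn (u + v) = sgn u * sgn v := by
  revert u v; decide

theorem sgn_sq (u : ZMod 2) : sgn u * sgn u = 1 := by
  revert u; decide

/-- the bilinear form on `𝔽₂^k` -/
def ip {k : ℕ} (a x : Fin k → ZMod 2) : ZMod 2 := ∑ i, a i * x i

theorem ip_add_left {k : ℕ} (a b x : Fin k → ZMod 2) : ip (a + b) x = ip a x + ip b x := by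
  simp [ip, add_mul, Finset.sum_add_distrib]

theorem ip_add_right {k : ℕ} (a x y : Fin k → ZMod 2) : ip a (x + y) = ip a x + ip a y := by
  simp [ip, mul_add, Finset.sum_add_distrib]

theorem orth {k : ℕ} (z : Fin k → ZMod 2) (hz : z ≠ 0) :
    ∑ a : Fin k → ZMod 2, sgn (ip a z) = 0 := by
  classical
  obtain ⟨i, hi⟩ := Function.ne_iff.mp hz
  have hzi : z i = 1 := by
    have : z i ≠ 0 := hi
    revert this; generalize z i = w; revert w; decide
  have key : ∑ a : Fin k → ZMod 2, sgn (ip a z)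
      = ∑ a : Fin k → ZMod 2, sgn (ip (a + Pi.single i 1) z) :=
    (Equiv.sum_comp (Equiv.addRight (Pi.single i (1 : ZMod 2) : Fin k → ZMod 2))
      (fun a => sgn (ip a z))).symm
  have h1 : ∀ a : Fin k → ZMod 2, sgn (ip (a + Pi.single i 1) z) = - sgn (ip a z) := by
    intro a
    rw [ip_add_left, sgn_add]
    have : ip (Pi.single i (1 : ZMod 2)) z = 1 := by
      unfold ip
      rw [Finset.sum_eq_single i]
      · simp [hzi]
      · intro b _ hb
        simp [Pi.single_eq_of_ne hb]
      · simp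
    rw [this]
    have : sgn 1 = -1 := by decide
    rw [this]; ring
  simp only [h1, Finset.sum_neg_distrib] at key
  linarith

theorem parseval {k : ℕ} (F : (Fin k → ZMod 2) → ℤ) (hF : ∀ x, F x * F x = 1) :
    ∑ a : Fin k → ZMod 2, (∑ x, F x * sgn (ip a x)) ^ 2 = (2 ^ k) * (2 ^ k) := by
  classical
  have h1 : ∀ a : Fin k → ZMod 2, (∑ x, F x * sgn (ip a x)) ^ 2
      = ∑ x, ∑ y, F x * F y * sgn (ip a (x + y)) := by
    intro a
    rw [sq, Finset.sum_mul_sum]
    refine Finset.sum_congr rfl fun x _ => Finset.sum_congr rfl fun y _ => ?_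
    rw [ip_add_right, sgn_add]; ring
  simp only [h1]
  rw [Finset.sum_comm]
  have h2 : ∀ x : Fin k → ZMod 2,
      ∑ a : Fin k → ZMod 2, ∑ y, F x * F y * sgn (ip a (x + y)) = 2 ^ k := by
    intro x
    rw [Finset.sum_comm, Finset.sum_eq_single x]
    · have hxx : x + x = 0 := by
        ext i; exact CharTwo.add_self_eq_zero _
      simp only [hxx]
      have : ∀ a : Fin k → ZMod 2, sgn (ip a 0) = 1 := by
        intro a; simp [ip, sgn]
      simp [this, hF]
    · intro y _ hy
      rw [← Finset.mul_sum, orth, mul_zero]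
      intro h
      apply hy
      ext i
      have h3 := congrFun h i
      simp only [Pi.add_apply, Pi.zero_apply] at h3
      revert h3
      generalize x i = u
      generalize y i = v
      revert u v; decide
    · simp
  simp only [h2]
  simp

/-- some Walsh coefficient of a sign function is large -/
theorem exists_large {k j : ℕ} (hk : k = 2 * j) (F : (Fin k → ZMod 2) → ℤ)
    (hF : ∀ x, F x * F x = 1) :
    ∃ a : Fin k → ZMod 2, (2 : ℤ) ^ j ≤ |∑ x, F x * sgn (ip a x)| := by
  classical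
  by_contra hcon
  push Not at hcon
  have h := parseval F hF
  have h2 : ∑ a : Fin k → ZMod 2, (∑ x, F x * sgn (ip a x)) ^ 2
      < ∑ _a : Fin k → ZMod 2, ((2 : ℤ) ^ k) := by
    apply Finset.sum_lt_sum_of_nonempty Finset.univ_nonempty
    intro a _
    have h3 := hcon a
    have h4 : (∑ x, F x * sgn (ip a x)) ^ 2 < ((2 : ℤ) ^ j) ^ 2 := by
      rw [← sq_abs]
      have h5 := abs_nonneg (∑ x, F x * sgn (ip a x))
      nlinarith
    calc _ < ((2 : ℤ) ^ j) ^ 2 := h4
      _ = 2 ^ k := by rw [hk, ← pow_mul]; ring_nf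
  rw [h] at h2
  simp at h2

/-! ### Weights -/

variable {ι : Type*} [Fintype ι] [DecidableEq ι]

omit [DecidableEq ι] in
theorem weight_sum (y : ι → ZMod 2) :
    ∑ i, sgn (y i) = (Fintype.card ι : ℤ) - 2 * (hammingNorm y : ℤ) := by
  classical
  have h1 : ∀ i, sgn (y i) = 1 - 2 * (if y i ≠ 0 then 1 else 0) := by
    intro i
    generalize y i = u
    revert u; decide
  simp only [h1, Finset.sum_sub_distrib, ← Finset.mul_sum]
  rw [Finset.sum_boole]
  simp [hammingNorm]

/-- A coset of a subspace `V` contains a vector with at least `dim V` nonzero coordinates. -/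
theorem coset_heavy (V : Submodule (ZMod 2) (ι → ZMod 2)) (x : ι → ZMod 2) :
    ∃ v ∈ V, finrank (ZMod 2) V ≤ hammingNorm (x + v) := by
  classical
  -- a maximal set of coordinates on which `V` projects onto
  let P : Finset ι → Prop := fun T => ∀ b : ι → ZMod 2, ∃ v ∈ V, ∀ i ∈ T, v i = b i
  have hP0 : P ∅ := fun b => ⟨0, V.zero_mem, by simp⟩
  obtain ⟨T, hT, hmax⟩ := (Finset.univ.filter P).exists_max_image Finset.card
    ⟨∅, by simpa using hP0⟩
  have hPT : P T := (Finset.mem_filter.mp hT).2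
  have hker : ∀ v ∈ V, (∀ i ∈ T, v i = 0) → v = 0 := by
    intro v hv hv0
    by_contra hne
    obtain ⟨i, hi⟩ := Function.ne_iff.mp hne
    have hi1 : v i = 1 := by
      have : v i ≠ 0 := hi
      revert this; generalize v i = w; revert w; decide
    have hiT : i ∉ T := fun h => hi (hv0 i h)
    have hPi : P (insert i T) := by
      intro b
      obtain ⟨u, hu, hub⟩ := hPT b
      refine ⟨u + (b i - u i) • v, V.add_mem hu (V.smul_mem _ hv), ?_⟩
      intro l hl
      rcases Finset.mem_insert.mp hl with rfl | hl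
      · simp [hi1]
      · simp [hv0 l hl, hub l hl]
    have := hmax (insert i T) (by simpa using hPi)
    rw [Finset.card_insert_of_notMem hiT] at this
    omega
  have hfin : finrank (ZMod 2) V ≤ T.card := by
    let φ : V →ₗ[ZMod 2] (T → ZMod 2) :=
      { toFun := fun v i => v.1 i.1
        map_add' := fun _ _ => rfl
        map_smul' := fun _ _ => rfl }
    have hφ : Function.Injective φ := by
      rw [← LinearMap.ker_eq_bot, LinearMap.ker_eq_bot']
      intro v hv
      apply Subtype.ext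
      apply hker v.1 v.2
      intro i hi
      exact congrFun hv ⟨i, hi⟩
    have h := LinearMap.finrank_le_finrank_of_injective hφ
    simpa using h
  obtain ⟨v, hv, hvb⟩ := hPT (fun i => 1 + x i)
  refine ⟨v, hv, hfin.trans ?_⟩
  unfold hammingNorm
  apply Finset.card_le_card
  intro i hi
  have h1 := hvb i hi
  simp only [Finset.mem_filter, Finset.mem_univ, true_and, Pi.add_apply, h1]
  have h2 : ∀ u : ZMod 2, u + (1 + u) ≠ 0 := by decide
  exact h2 _

/-! ### The main construction -/

/-- the affine function on `𝔽₂^k`, as a vector indexed by `Fin (2^k)` -/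
def aff {k N : ℕ} (e : Fin N ≃ (Fin k → ZMod 2)) (p : (Fin k → ZMod 2) × ZMod 2) :
    Fin N → ZMod 2 := fun i => ip p.1 (e i) + p.2

theorem main (j : ℕ) : ∃ (A : Set (Fin (4 ^ j) → ZMod 2)) (S : Finset (Fin (4 ^ j) → ZMod 2)),
    S.card = 2 * 4 ^ j ∧ A + (S : Set (Fin (4 ^ j) → ZMod 2)) = Set.univ ∧
    ∀ (x : Fin (4 ^ j) → ZMod 2) (V : Submodule (ZMod 2) (Fin (4 ^ j) → ZMod 2)),
      (∀ v ∈ V, x + v ∈ A + A) → finrank (ZMod 2) V + 2 ^ j ≤ 4 ^ j := by
  classical
  have hcard : Fintype.card (Fin (4 ^ j)) = Fintype.card (Fin (2 * j) → ZMod 2) := by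
    simp [pow_mul]
  let e : Fin (4 ^ j) ≃ (Fin (2 * j) → ZMod 2) := Fintype.equivOfCardEq hcard
  let A : Set (Fin (4 ^ j) → ZMod 2) := {y | 2 * hammingNorm y + 2 ^ j ≤ 4 ^ j}
  let S₀ : Finset (Fin (4 ^ j) → ZMod 2) := Finset.univ.image (aff e)
  have hS₀ : S₀.card ≤ 2 * 4 ^ j := by
    refine Finset.card_image_le.trans ?_
    rw [Finset.card_univ]
    simp [pow_mul]
    omega
  have hbig : 2 * 4 ^ j ≤ Fintype.card (Fin (4 ^ j) → ZMod 2) := by
    have h1 : 0 < 4 ^ j := by positivity
    generalize 4 ^ j = m at h1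
    simp only [Fintype.card_fun, ZMod.card, Fintype.card_fin]
    obtain ⟨m', rfl⟩ : ∃ m', m = m' + 1 := ⟨m - 1, by omega⟩
    have h2 : m' < 2 ^ m' := Nat.lt_two_pow_self
    rw [pow_succ]; omega
  obtain ⟨S, hSS, hSc⟩ := Finset.exists_superset_card_eq hS₀ hbig
  refine ⟨A, S, hSc, ?_, ?_⟩
  · rw [Set.eq_univ_iff_forall]
    intro f
    -- the sign function of `f`
    let F : (Fin (2 * j) → ZMod 2) → ℤ := fun x => sgn (f (e.symm x))
    obtain ⟨a, ha⟩ := exists_large rfl F (fun x => sgn_sq _)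
    have hsum : ∀ c : ZMod 2, ∑ i, sgn ((f + aff e (a, c)) i)
        = sgn c * ∑ x, F x * sgn (ip a x) := by
      intro c
      rw [Finset.mul_sum, ← Equiv.sum_comp e]
      refine Finset.sum_congr rfl fun i _ => ?_
      simp only [F, aff, Pi.add_apply, Equiv.symm_apply_apply, sgn_add]
      ring
    have hkey : ∃ c : ZMod 2, (2 : ℤ) ^ j ≤ sgn c * ∑ x, F x * sgn (ip a x) := by
      rcases le_total 0 (∑ x, F x * sgn (ip a x)) with h | h
      · refine ⟨0, ?_⟩
        rw [abs_of_nonneg h] at ha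
        have : sgn 0 = 1 := by decide
        rw [this, one_mul]; exact ha
      · refine ⟨1, ?_⟩
        rw [abs_of_nonpos h] at ha
        have : sgn 1 = -1 := by decide
        rw [this]; linarith
    obtain ⟨c, hc⟩ := hkey
    rw [← hsum c, weight_sum] at hc
    refine Set.mem_add.mpr ⟨f + aff e (a, c), ?_, aff e (a, c), ?_, ?_⟩
    · show 2 * hammingNorm (f + aff e (a, c)) + 2 ^ j ≤ 4 ^ j
      simp only [Fintype.card_fin] at hc
      have h5 : ((2 * hammingNorm (f + aff e (a, c)) + 2 ^ j : ℕ) : ℤ) ≤ ((4 ^ j : ℕ) : ℤ) := by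
        push_cast
        push_cast at hc
        linarith
      exact_mod_cast h5
    · exact hSS (Finset.mem_image_of_mem _ (Finset.mem_univ _))
    · rw [add_assoc]
      have : aff e (a, c) + aff e (a, c) = 0 := by
        ext i
        exact CharTwo.add_self_eq_zero (aff e (a, c) i)
      rw [this, add_zero]
  · intro x V hV
    obtain ⟨v, hv, hw⟩ := coset_heavy V x
    obtain ⟨y, hy, z, hz, hyz⟩ := Set.mem_add.mp (hV v hv)
    have hy' : 2 * hammingNorm y + 2 ^ j ≤ 4 ^ j := hy
    have hz' : 2 * hammingNorm z + 2 ^ j ≤ 4 ^ j := hz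
    have h1 : hammingNorm (y + z) ≤ hammingNorm y + hammingNorm z := by
      have h2 := hammingDist_triangle y 0 z
      have h3 : hammingDist y z = hammingNorm (y + z) := by
        unfold hammingDist hammingNorm
        congr 1
        ext i
        simp only [Finset.mem_filter, Finset.mem_univ, true_and, Pi.add_apply]
        have h4 : ∀ u v : ZMod 2, u ≠ v ↔ u + v ≠ 0 := by decide
        exact h4 _ _
      rw [h3, hammingDist_zero_right, hammingDist_zero_left] at h2
      exact h2
    rw [← hyz] at hw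
    omega

/-- **Q2 of MP_6fec45_co has a negative answer.** For every constant `C` there are `n ≥ 1`, `K ≥ 1`, a set
`A ⊆ 𝔽₂ⁿ` and an additive complement `S` of `A` of size `K`, such that every coset `x + V` contained in
`2A = A + A` has codimension `n - dim V > C log (2K)`; moreover its codimension is at least
`√(K/2)`. -/
theorem result (C : ℝ) :
    ∃ (n K : ℕ) (A : Set (Fin n → ZMod 2)) (S : Finset (Fin n → ZMod 2)),
      1 ≤ n ∧ 1 ≤ K ∧ S.card = K ∧ A + (S : Set (Fin n → ZMod 2)) = Set.univ ∧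
      ∀ (x : Fin n → ZMod 2) (V : Submodule (ZMod 2) (Fin n → ZMod 2)),
        (fun v => x + v) '' (V : Set (Fin n → ZMod 2)) ⊆ A + A →
          C * Real.log (2 * K) < (n : ℝ) - finrank (ZMod 2) V ∧
          Real.sqrt (K / 2) ≤ (n : ℝ) - finrank (ZMod 2) V := by
  -- choose `j` with `C log (4 ^ (j + 1)) < 2 ^ j`
  obtain ⟨j, hj⟩ : ∃ j : ℕ, C * Real.log (2 * ((2 * 4 ^ j : ℕ) : ℝ)) < 2 ^ j := by
    have h1 : Filter.Tendsto (fun j : ℕ => ((j : ℝ) ^ 1) / (2 : ℝ) ^ j) Filter.atTop (nhds 0) :=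
      tendsto_pow_const_div_const_pow_of_one_lt 1 (by norm_num)
    have hpos : (0 : ℝ) < 1 / (4 * (|C| + 1)) := by positivity
    obtain ⟨j, hj1, hj2⟩ := ((h1.eventually (gt_mem_nhds hpos)).and
      (Filter.eventually_ge_atTop 1)).exists
    refine ⟨j, ?_⟩
    have hlog : Real.log (2 * ((2 * 4 ^ j : ℕ) : ℝ)) = (j + 1) * Real.log 4 := by
      have : (2 * ((2 * 4 ^ j : ℕ) : ℝ)) = 4 ^ (j + 1) := by push_cast; ring
      rw [this, Real.log_pow]; push_cast; ring
    have hlog4 : Real.log 4 ≤ 2 := by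
      have h2 : Real.log 4 = 2 * Real.log 2 := by
        rw [show (4 : ℝ) = 2 ^ 2 by norm_num, Real.log_pow]; norm_num
      rw [h2]
      have := Real.log_two_lt_d9
      linarith
    have hlog4' : 0 ≤ Real.log 4 := Real.log_nonneg (by norm_num)
    rw [hlog]
    have hjr : (1 : ℝ) ≤ j := by exact_mod_cast hj2
    have h2j : (0 : ℝ) < 2 ^ j := by positivity
    have h3 : (j : ℝ) * (4 * (|C| + 1)) < 2 ^ j := by
      rw [pow_one, div_lt_div_iff₀ h2j (by positivity)] at hj1
      linarith
    have h4 : C * ((j + 1) * Real.log 4) ≤ |C| * ((j + 1) * 2) := by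
      have h5 : C * ((j + 1) * Real.log 4) ≤ |C| * ((j + 1) * Real.log 4) :=
        mul_le_mul_of_nonneg_right (le_abs_self C) (by positivity)
      refine h5.trans ?_
      apply mul_le_mul_of_nonneg_left _ (abs_nonneg C)
      apply mul_le_mul_of_nonneg_left hlog4 (by positivity)
    have h6 : |C| * ((j + 1) * 2) ≤ (j : ℝ) * (4 * (|C| + 1)) := by
      have := abs_nonneg C
      nlinarith
    linarith
  obtain ⟨A, S, hS, hAS, hV⟩ := main j
  refine ⟨4 ^ j, 2 * 4 ^ j, A, S, Nat.one_le_pow _ _ (by norm_num), ?_, hS, hAS, ?_⟩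
  · have : 0 < 4 ^ j := by positivity
    omega
  · intro x V hsub
    have h1 := hV x V (fun v hv => hsub ⟨v, hv, rfl⟩)
    have h2 : ((finrank (ZMod 2) V + 2 ^ j : ℕ) : ℝ) ≤ ((4 ^ j : ℕ) : ℝ) := by exact_mod_cast h1
    have h3 : (2 : ℝ) ^ j ≤ ((4 ^ j : ℕ) : ℝ) - finrank (ZMod 2) V := by
      push_cast at h2 ⊢
      linarith
    refine ⟨lt_of_lt_of_le hj h3, le_trans (le_of_eq ?_) h3⟩
    have h4 : (((2 * 4 ^ j : ℕ) : ℝ) / 2) = (2 ^ j) ^ 2 := by
      push_cast
      rw [← pow_mul, mul_comm j 2, pow_mul]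
      norm_num
    rw [h4, Real.sqrt_sq (by positivity)]

end Pool.Agent.R96.LogBoundFails
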